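import Pool.Agent.VTP.StmtsA

/-!
# Squad VTP, row PR3: the third move
-/

set_option autoImplicit false

namespace Pool.Agent.VTP.H69

open Finset Pool.Agent.ZOL Pool.Agent.VTP

namespace Pr3

section

variable {R : Type} [CommRing R] (q : ℤ → R) (V W : Finset ℕ) (σ s : ℕ → ℤ)

open Classical in
/-- The term of a set of crossings. -/
noncomputable def tm (i : ℕ → ℕ → Prop) (S : Finset ℕ) : R :=
  if NI i S then (∏ c ∈ S, xx q σ s c) * q (NN W σ s i S / 2) else 0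

theorem PP_eq (i : ℕ → ℕ → Prop) :
    PP q W σ s i = ∑ S ∈ W.powerset, tm q W σ s i S := by
  classical
  unfold PP tm
  rw [Finset.sum_filter]

theorem PP_split (i : ℕ → ℕ → Prop) (a b c : ℕ) (ha : a ∉ V) (hb : b ∉ V) (hc : c ∉ V)
    (hab : a ≠ b) (hac : a ≠ c) (hbc : b ≠ c) (hW : W = insert a (insert b (insert c V))) :
    PP q W σ s i = ∑ S ∈ V.powerset,
      (tm q W σ s i (∅ ∪ S) + tm q W σ s i ({a} ∪ S) + tm q W σ s i ({b} ∪ S) +
        tm q W σ s i ({c} ∪ S) + tm q W σ s i ({a, b} ∪ S) + tm q W σ s i ({a, c} ∪ S) +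
        tm q W σ s i ({b, c} ∪ S) + tm q W σ s i ({a, b, c} ∪ S)) := by
  rw [PP_eq]
  have h1 : a ∉ insert b (insert c V) := by simp [hab, hac, ha]
  have h2 : b ∉ insert c V := by simp [hbc, hb]
  nth_rewrite 1 [hW]
  rw [Finset.sum_powerset_insert h1, Finset.sum_powerset_insert h2,
    Finset.sum_powerset_insert hc, Finset.sum_powerset_insert h2,
    Finset.sum_powerset_insert hc, Finset.sum_powerset_insert hc,
    Finset.sum_powerset_insert hc]
  simp only [← Finset.sum_add_distrib]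
  refine Finset.sum_congr rfl fun S _ => ?_
  simp only [Finset.insert_union, Finset.singleton_union, Finset.empty_union]
  ring

theorem NI_un (i : ℕ → ℕ → Prop) (hs : ∀ x y, i x y → i y x) (T S : Finset ℕ) :
    NI i (T ∪ S) ↔ NI i S ∧ (∀ x ∈ T, ∀ y ∈ S, ¬ i x y) ∧ ∀ x ∈ T, ∀ y ∈ T, ¬ i x y := by
  constructor
  · intro h
    exact ⟨fun x hx y hy => h x (mem_union_right _ hx) y (mem_union_right _ hy),
      fun x hx y hy => h x (mem_union_left _ hx) y (mem_union_right _ hy),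
      fun x hx y hy => h x (mem_union_left _ hx) y (mem_union_left _ hy)⟩
  · rintro ⟨h1, h2, h3⟩ x hx y hy
    rcases mem_union.1 hx with hx | hx <;> rcases mem_union.1 hy with hy | hy
    · exact h3 x hx y hy
    · exact h2 x hx y hy
    · exact fun h => h2 y hy x hx (hs _ _ h)
    · exact h1 x hx y hy

open Classical in
theorem NN_un (i : ℕ → ℕ → Prop) (E T S : Finset ℕ) (hE : Disjoint E V) (hT : T ⊆ E)
    (hS : S ⊆ V) (hW : W = E ∪ V) :
    NN W σ s i (T ∪ S) =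
      (∑ d ∈ V.filter (fun d => d ∉ S ∧ (∀ c ∈ S, ¬ i c d) ∧ ∀ x ∈ T, ¬ i x d), σ d) +
      (∑ x ∈ E, if x ∉ T ∧ (∀ c ∈ S, ¬ i c x) ∧ (∀ z ∈ T, ¬ i z x) then σ x else 0) -
      (∑ x ∈ T, σ x) - (∑ x ∈ S, σ x) - ∑ d ∈ W, s d := by
  unfold NN
  have hTS : Disjoint T S := Finset.disjoint_of_subset_left hT (Finset.disjoint_of_subset_right hS hE)
  rw [Finset.sum_union hTS, ← Finset.sum_filter]
  have e : W.filter (fun d => d ∉ T ∪ S ∧ ∀ c ∈ T ∪ S, ¬ i c d) =
      (E.filter (fun x => x ∉ T ∧ (∀ c ∈ S, ¬ i c x) ∧ (∀ z ∈ T, ¬ i z x))) ∪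
      (V.filter (fun d => d ∉ S ∧ (∀ c ∈ S, ¬ i c d) ∧ ∀ x ∈ T, ¬ i x d)) := by
    ext d
    simp only [hW, mem_filter, mem_union, not_or]
    constructor
    · rintro ⟨h1, ⟨h2, h3⟩, h4⟩
      rcases h1 with h1 | h1
      · exact Or.inl ⟨h1, h2, fun c hc => h4 c (Or.inr hc), fun c hc => h4 c (Or.inl hc)⟩
      · exact Or.inr ⟨h1, h3, fun c hc => h4 c (Or.inr hc), fun c hc => h4 c (Or.inl hc)⟩
    · rintro (⟨h1, h2, h3, h4⟩ | ⟨h1, h2, h3, h4⟩)
      · exact ⟨Or.inl h1, ⟨h2, fun h => Finset.disjoint_left.1 hE h1 (hS h)⟩,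
          fun c hc => hc.elim (h4 c) (h3 c)⟩
      · exact ⟨Or.inr h1, ⟨fun h => Finset.disjoint_left.1 hE (hT h) h1, h2⟩,
          fun c hc => hc.elim (h4 c) (h3 c)⟩
  rw [e, Finset.sum_union (Finset.disjoint_filter_filter hE)]
  ring

open Classical in
/-- The contribution of the crossings of `V`. -/
noncomputable def AA (i : ℕ → ℕ → Prop) (S T : Finset ℕ) : ℤ :=
  ∑ d ∈ V.filter (fun d => d ∉ S ∧ (∀ c ∈ S, ¬ i c d) ∧ ∀ x ∈ T, ¬ i x d), σ d

theorem AA_congr (iL iR : ℕ → ℕ → Prop) (E T S : Finset ℕ) (hT : T ⊆ E) (hS : S ⊆ V)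
    (hV : ∀ x ∈ V, ∀ y ∈ V, (iL x y ↔ iR x y)) (hEV : ∀ x ∈ E, ∀ y ∈ V, (iL x y ↔ iR x y)) :
    AA V σ iL S T = AA V σ iR S T := by
  unfold AA
  refine Finset.sum_congr ?_ fun _ _ => rfl
  ext d
  simp only [mem_filter]
  refine and_congr_right fun hd => and_congr Iff.rfl (and_congr ?_ ?_)
  · exact forall₂_congr fun c hc => not_congr (hV c (hS hc) d hd)
  · exact forall₂_congr fun c hc => not_congr (hEV c (hT hc) d hd)

/-- At most one of the three crossings is compatible with `S`. -/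
theorem tm_same (iL iR : ℕ → ℕ → Prop) (hsL : ∀ x y, iL x y → iL y x)
    (hsR : ∀ x y, iR x y → iR y x) (hrL : ∀ x, ¬ iL x x) (hrR : ∀ x, ¬ iR x x)
    (E T S : Finset ℕ) (hE : Disjoint E V) (hT : T ⊆ E) (hS : S ⊆ V) (hW : W = E ∪ V)
    (hV : ∀ x ∈ V, ∀ y ∈ V, (iL x y ↔ iR x y)) (hEV : ∀ x ∈ E, ∀ y ∈ V, (iL x y ↔ iR x y))
    (hK : ∀ x ∈ E, ∀ z ∈ E, (∀ c ∈ S, ¬ iL c x) → (∀ c ∈ S, ¬ iL c z) → x = z) :
    tm q W σ s iL (T ∪ S) = tm q W σ s iR (T ∪ S) := by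
  classical
  have hVE : ∀ x ∈ E, ∀ y ∈ V, (iL y x ↔ iR y x) := fun x hx y hy =>
    ⟨fun h => hsR _ _ ((hEV x hx y hy).1 (hsL _ _ h)),
      fun h => hsL _ _ ((hEV x hx y hy).2 (hsR _ _ h))⟩
  have hNI : NI iL (T ∪ S) ↔ NI iR (T ∪ S) := by
    rw [NI_un iL hsL, NI_un iR hsR]
    have e1 : NI iL S ↔ NI iR S := by
      unfold NI
      exact forall₂_congr fun x hx => forall₂_congr fun y hy =>
        not_congr (hV x (hS hx) y (hS hy))
    have e2 : (∀ x ∈ T, ∀ y ∈ S, ¬ iL x y) ↔ (∀ x ∈ T, ∀ y ∈ S, ¬ iR x y) :=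
      forall₂_congr fun x hx => forall₂_congr fun y hy =>
        not_congr (hEV x (hT hx) y (hS hy))
    rw [e1, e2]
    refine and_congr_right fun _ => and_congr_right fun h2 => ?_
    have h2' : ∀ x ∈ T, ∀ c ∈ S, ¬ iL c x := fun x hx c hc h =>
      e2.2 h2 x hx c hc (hsL _ _ h)
    refine forall₂_congr fun x hx => forall₂_congr fun y hy => ?_
    have : x = y := hK x (hT hx) y (hT hy) (h2' x hx) (h2' y hy)
    subst this
    exact ⟨fun _ => hrR x, fun _ => hrL x⟩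
  unfold tm
  by_cases h : NI iL (T ∪ S)
  · rw [if_pos h, if_pos (hNI.1 h)]
    have hTK : ∀ x ∈ T, ∀ c ∈ S, ¬ iL c x := fun x hx c hc =>
      h c (mem_union_right _ hc) x (mem_union_left _ hx)
    have e : NN W σ s iL (T ∪ S) = NN W σ s iR (T ∪ S) := by
      rw [NN_un V W σ s iL E T S hE hT hS hW, NN_un V W σ s iR E T S hE hT hS hW]
      have e1 := AA_congr V σ iL iR E T S hT hS hV hEV
      unfold AA at e1
      rw [e1]
      have e2 : (∑ x ∈ E, if x ∉ T ∧ (∀ c ∈ S, ¬ iL c x) ∧ (∀ z ∈ T, ¬ iL z x) then σ x else 0) =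
          ∑ x ∈ E, if x ∉ T ∧ (∀ c ∈ S, ¬ iR c x) ∧ (∀ z ∈ T, ¬ iR z x) then σ x else 0 := by
        refine Finset.sum_congr rfl fun x hx => ?_
        have e3 : (x ∉ T ∧ (∀ c ∈ S, ¬ iL c x) ∧ (∀ z ∈ T, ¬ iL z x)) ↔
            (x ∉ T ∧ (∀ c ∈ S, ¬ iR c x) ∧ (∀ z ∈ T, ¬ iR z x)) := by
          refine and_congr_right fun hxT => ?_
          have e4 : (∀ c ∈ S, ¬ iL c x) ↔ (∀ c ∈ S, ¬ iR c x) :=
            forall₂_congr fun c hc => not_congr (hVE x hx c (hS hc))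
          rw [← e4]
          refine and_congr_right fun hxK => ?_
          refine forall₂_congr fun z hz => ?_
          exact absurd (hK x hx z (hT hz) hxK (hTK z hz) ▸ hz) hxT
        exact if_congr e3 rfl rfl
      rw [e2]
    rw [e]
  · rw [if_neg h, if_neg (fun h' => h (hNI.2 h'))]

open Classical in
/-- All three crossings are compatible with `S`. -/
theorem tm_val (i : ℕ → ℕ → Prop) (hs : ∀ x y, i x y → i y x)
    (E T S : Finset ℕ) (hE : Disjoint E V) (hT : T ⊆ E) (hS : S ⊆ V) (hW : W = E ∪ V)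
    (hN : NI i S) (hK : ∀ x ∈ E, ∀ c ∈ S, ¬ i c x) :
    tm q W σ s i (T ∪ S) = if (∀ x ∈ T, ∀ y ∈ T, ¬ i x y) then
      (∏ c ∈ S, xx q σ s c) * ((∏ c ∈ T, xx q σ s c) *
        q ((-(∑ x ∈ S, σ x) - (∑ d ∈ W, s d) + AA V σ i S T - (∑ x ∈ T, σ x) +
          ∑ x ∈ E, if x ∉ T ∧ (∀ z ∈ T, ¬ i z x) then σ x else 0) / 2)) else 0 := by
  unfold tm
  have hTS : Disjoint T S := Finset.disjoint_of_subset_left hT (Finset.disjoint_of_subset_right hS hE)
  have e : NI i (T ∪ S) ↔ (∀ x ∈ T, ∀ y ∈ T, ¬ i x y) := by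
    rw [NI_un i hs]
    exact ⟨fun h => h.2.2, fun h => ⟨hN, fun x hx y hy h' => hK x (hT hx) y hy (hs _ _ h'), h⟩⟩
  by_cases h : (∀ x ∈ T, ∀ y ∈ T, ¬ i x y)
  · rw [if_pos h, if_pos (e.2 h), Finset.prod_union hTS, NN_un V W σ s i E T S hE hT hS hW]
    have e2 : (∑ x ∈ E, if x ∉ T ∧ (∀ c ∈ S, ¬ i c x) ∧ (∀ z ∈ T, ¬ i z x) then σ x else 0) =
        ∑ x ∈ E, if x ∉ T ∧ (∀ z ∈ T, ¬ i z x) then σ x else 0 := by
      refine Finset.sum_congr rfl fun x hx => ?_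
      refine if_congr ?_ rfl rfl
      exact ⟨fun h => ⟨h.1, h.2.2⟩, fun h => ⟨h.1, hK x hx, h.2⟩⟩
    rw [e2]
    unfold AA
    rw [mul_comm (∏ c ∈ T, xx q σ s c) (∏ c ∈ S, xx q σ s c), mul_assoc]
    congr 3
    congr 1
    ring
  · rw [if_neg h, if_neg (fun h' => h (e.1 h'))]

theorem sum3 (a b c : ℕ) (hab : a ≠ b) (hac : a ≠ c) (hbc : b ≠ c) (f : ℕ → ℤ) :
    ∑ x ∈ ({a, b, c} : Finset ℕ), f x = f a + f b + f c := by
  rw [Finset.sum_insert (by simp [hab, hac]), Finset.sum_insert (by simp [hbc]),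
    Finset.sum_singleton]
  ring

theorem xx_eq (x : ℕ) (u : Bool) (hu : s x ≠ σ x ↔ u = true) :
    xx q σ s x = if u = true then 1 - q (σ x) else 0 := by
  unfold xx
  cases u
  · have : s x = σ x := by
      by_contra h
      exact Bool.false_ne_true (hu.1 h)
    simp [this]
  · have : s x ≠ σ x := hu.2 rfl
    simp [this]

theorem ite_g (p : Prop) [Decidable p] (u : Bool) (h : p ↔ u = false) (x : ℤ) :
    (if p then x else 0) = if u = true then 0 else x := by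
  cases u
  · have : p := h.2 rfl
    simp [this]
  · have : ¬ p := fun hp => by simpa using h.1 hp
    simp [this]

theorem ite_z (p : Prop) [Decidable p] (h : ¬ p) (x : ℤ) : (if p then x else 0) = 0 := if_neg h

theorem par_ab {A B C : Prop} (h : B ↔ ¬ (A ↔ C)) : (¬ A ∧ ¬ B) ↔ (¬ A ∧ ¬ B ∧ ¬ C) := by
  by_cases hA : A <;> by_cases hC : C <;> simp_all

theorem par_ac {A B C : Prop} (h : B ↔ ¬ (A ↔ C)) : (¬ A ∧ ¬ C) ↔ (¬ A ∧ ¬ B ∧ ¬ C) := by
  by_cases hA : A <;> by_cases hC : C <;> simp_all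

theorem par_bc {A B C : Prop} (h : B ↔ ¬ (A ↔ C)) : (¬ B ∧ ¬ C) ↔ (¬ A ∧ ¬ B ∧ ¬ C) := by
  by_cases hA : A <;> by_cases hC : C <;> simp_all

theorem t_zero (i : ℕ → ℕ → Prop) (hs : ∀ x y, i x y → i y x)
    (E S : Finset ℕ) (hE : Disjoint E V) (hS : S ⊆ V) (hW : W = E ∪ V)
    (hN : NI i S) (hK : ∀ x ∈ E, ∀ c ∈ S, ¬ i c x) (x y z : ℕ)
    (h3 : ∀ f : ℕ → ℤ, ∑ w ∈ E, f w = f x + f y + f z) :
    tm q W σ s i (∅ ∪ S) = (∏ c ∈ S, xx q σ s c) *
      q ((-(∑ x ∈ S, σ x) - (∑ d ∈ W, s d) + AA V σ i S ∅ + σ x + σ y + σ z) / 2) := by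
  classical
  rw [tm_val q V W σ s i hs E ∅ S hE (empty_subset _) hS hW hN hK, h3]
  simp only [notMem_empty, not_false_eq_true, IsEmpty.forall_iff, implies_true, and_self,
    if_true, prod_empty, sum_empty, one_mul]
  have ea : -(∑ x ∈ S, σ x) - (∑ d ∈ W, s d) + AA V σ i S ∅ - 0 + (σ x + σ y + σ z) =
      -(∑ x ∈ S, σ x) - (∑ d ∈ W, s d) + AA V σ i S ∅ + σ x + σ y + σ z := by ring
  rw [ea]

theorem t_one (i : ℕ → ℕ → Prop) (hs : ∀ x y, i x y → i y x) (hr : ∀ x, ¬ i x x)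
    (E S : Finset ℕ) (hE : Disjoint E V) (hS : S ⊆ V) (hW : W = E ∪ V)
    (hN : NI i S) (hK : ∀ x ∈ E, ∀ c ∈ S, ¬ i c x) (x y z : ℕ) (hxy : y ≠ x) (hxz : z ≠ x)
    (hx : x ∈ E) (h3 : ∀ f : ℕ → ℤ, ∑ w ∈ E, f w = f x + f y + f z) (ux ixy ixz : Bool)
    (hux : s x ≠ σ x ↔ ux = true) (hixy : i x y ↔ ixy = true) (hixz : i x z ↔ ixz = true) :
    tm q W σ s i ({x} ∪ S) = (∏ c ∈ S, xx q σ s c) * (if ux = true then (1 - q (σ x)) *
      q ((-(∑ x ∈ S, σ x) - (∑ d ∈ W, s d) + AA V σ i S {x} - σ x +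
        (if ixy = true then 0 else σ y) + (if ixz = true then 0 else σ z)) / 2) else 0) := by
  classical
  rw [tm_val q V W σ s i hs E {x} S hE (singleton_subset_iff.2 hx) hS hW hN hK, h3,
    if_pos (by simp [hr x]), prod_singleton, sum_singleton, xx_eq q σ s x ux hux,
    ite_z (x ∉ ({x} : Finset ℕ) ∧ ∀ w ∈ ({x} : Finset ℕ), ¬ i w x) (by simp),
    ite_g (y ∉ ({x} : Finset ℕ) ∧ ∀ w ∈ ({x} : Finset ℕ), ¬ i w y) ixy (by simp [hxy, hixy]),
    ite_g (z ∉ ({x} : Finset ℕ) ∧ ∀ w ∈ ({x} : Finset ℕ), ¬ i w z) ixz (by simp [hxz, hixz])]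
  generalize -(∑ x ∈ S, σ x) - (∑ d ∈ W, s d) + AA V σ i S {x} = n
  have ea : n - σ x + (0 + (if ixy = true then 0 else σ y) + (if ixz = true then 0 else σ z)) =
      n - σ x + (if ixy = true then 0 else σ y) + (if ixz = true then 0 else σ z) := by ring
  rw [ea, ite_mul, zero_mul]

theorem t_two (i : ℕ → ℕ → Prop) (hs : ∀ x y, i x y → i y x) (hr : ∀ x, ¬ i x x)
    (E S : Finset ℕ) (hE : Disjoint E V) (hS : S ⊆ V) (hW : W = E ∪ V)
    (hN : NI i S) (hK : ∀ x ∈ E, ∀ c ∈ S, ¬ i c x) (x y z : ℕ) (hxy : x ≠ y) (hxz : z ≠ x)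
    (hyz : z ≠ y) (hx : x ∈ E) (hy : y ∈ E) (h3 : ∀ f : ℕ → ℤ, ∑ w ∈ E, f w = f x + f y + f z)
    (ux uy ixy ixz iyz : Bool)
    (hux : s x ≠ σ x ↔ ux = true) (huy : s y ≠ σ y ↔ uy = true)
    (hixy : i x y ↔ ixy = true) (hixz : i x z ↔ ixz = true) (hiyz : i y z ↔ iyz = true)
    (y3 : ℤ) (hy3 : AA V σ i S {x, y} = y3) :
    tm q W σ s i ({x, y} ∪ S) = (∏ c ∈ S, xx q σ s c) * (if (ux && uy && !ixy) = true then
      (1 - q (σ x)) * (1 - q (σ y)) *
      q ((-(∑ x ∈ S, σ x) - (∑ d ∈ W, s d) + y3 - σ x - σ y +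
        (if (ixz || iyz) = true then 0 else σ z)) / 2) else 0) := by
  classical
  have hT : ({x, y} : Finset ℕ) ⊆ E := by
    intro w hw
    rcases mem_insert.1 hw with rfl | hw
    · exact hx
    · rwa [mem_singleton.1 hw]
  rw [tm_val q V W σ s i hs E {x, y} S hE hT hS hW hN hK, h3,
    prod_insert (by simp [hxy]), sum_insert (by simp [hxy]), prod_singleton,
    sum_singleton, xx_eq q σ s x ux hux, xx_eq q σ s y uy huy, hy3,
    ite_z (x ∉ ({x, y} : Finset ℕ) ∧ ∀ z ∈ ({x, y} : Finset ℕ), ¬ i z x) (by simp),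
    ite_z (y ∉ ({x, y} : Finset ℕ) ∧ ∀ z ∈ ({x, y} : Finset ℕ), ¬ i z y) (by simp),
    ite_g (z ∉ ({x, y} : Finset ℕ) ∧ ∀ w ∈ ({x, y} : Finset ℕ), ¬ i w z) (ixz || iyz)
      (by simp [hxz, hyz, hixz, hiyz])]
  generalize -(∑ x ∈ S, σ x) - (∑ d ∈ W, s d) + y3 = n
  have ea : n - (σ x + σ y) + (0 + 0 + if (ixz || iyz) = true then 0 else σ z) =
      n - σ x - σ y + (if (ixz || iyz) = true then 0 else σ z) := by ring
  rw [ea]
  by_cases h : i x y
  · have h' : ixy = true := hixy.1 h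
    rw [if_neg (by
      intro h2
      exact h2 x (by simp) y (by simp) h)]
    simp [h']
  · have h' : ixy = false := by simpa using fun h' => h (hixy.2 h')
    rw [if_pos (by
      intro a ha b hb hab
      simp only [mem_insert, mem_singleton] at ha hb
      rcases ha with ha | ha <;> rcases hb with hb | hb <;> subst ha <;> subst hb
      · exact hr _ hab
      · exact h hab
      · exact h (hs _ _ hab)
      · exact hr _ hab)]
    cases ux <;> cases uy <;> simp [h']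

theorem t_three (i : ℕ → ℕ → Prop) (hs : ∀ x y, i x y → i y x) (hr : ∀ x, ¬ i x x)
    (a b c : ℕ) (hab : a ≠ b) (hac : a ≠ c) (hbc : b ≠ c) (S : Finset ℕ)
    (hE : Disjoint ({a, b, c} : Finset ℕ) V) (hS : S ⊆ V) (hW : W = {a, b, c} ∪ V)
    (hN : NI i S) (hK : ∀ x ∈ ({a, b, c} : Finset ℕ), ∀ c ∈ S, ¬ i c x)
    (iab iac ibc ua ub uc : Bool)
    (hiab : i a b ↔ iab = true) (hiac : i a c ↔ iac = true) (hibc : i b c ↔ ibc = true)
    (hua : s a ≠ σ a ↔ ua = true) (hub : s b ≠ σ b ↔ ub = true) (huc : s c ≠ σ c ↔ uc = true) :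
    tm q W σ s i ({a, b, c} ∪ S) = (∏ c ∈ S, xx q σ s c) *
      (if (ua && ub && uc && !iab && !iac && !ibc) = true then
      (1 - q (σ a)) * (1 - q (σ b)) * (1 - q (σ c)) *
      q ((-(∑ x ∈ S, σ x) - (∑ d ∈ W, s d) + AA V σ i S {a, b, c} - σ a - σ b - σ c) / 2)
      else 0) := by
  classical
  rw [tm_val q V W σ s i hs {a, b, c} {a, b, c} S hE (Subset.refl _) hS hW hN hK,
    sum3 a b c hab hac hbc, sum3 a b c hab hac hbc,
    prod_insert (by simp [hab, hac]), prod_insert (by simp [hbc]), prod_singleton,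
    xx_eq q σ s a ua hua, xx_eq q σ s b ub hub, xx_eq q σ s c uc huc,
    ite_z (a ∉ ({a, b, c} : Finset ℕ) ∧ ∀ z ∈ ({a, b, c} : Finset ℕ), ¬ i z a) (by simp),
    ite_z (b ∉ ({a, b, c} : Finset ℕ) ∧ ∀ z ∈ ({a, b, c} : Finset ℕ), ¬ i z b) (by simp),
    ite_z (c ∉ ({a, b, c} : Finset ℕ) ∧ ∀ z ∈ ({a, b, c} : Finset ℕ), ¬ i z c) (by simp)]
  generalize -(∑ x ∈ S, σ x) - (∑ d ∈ W, s d) + AA V σ i S {a, b, c} = n
  have ea : n - (σ a + σ b + σ c) + (0 + 0 + 0) = n - σ a - σ b - σ c := by ring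
  rw [ea]
  by_cases h : i a b ∨ i a c ∨ i b c
  · rw [if_neg (by
      intro h2
      rcases h with h | h | h
      · exact h2 a (by simp) b (by simp) h
      · exact h2 a (by simp) c (by simp) h
      · exact h2 b (by simp) c (by simp) h)]
    rcases h with h | h | h
    · simp [hiab.1 h]
    · simp [hiac.1 h]
    · simp [hibc.1 h]
  · simp only [not_or] at h
    obtain ⟨h1, h2, h3⟩ := h
    have h1' : iab = false := by simpa using fun h' => h1 (hiab.2 h')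
    have h2' : iac = false := by simpa using fun h' => h2 (hiac.2 h')
    have h3' : ibc = false := by simpa using fun h' => h3 (hibc.2 h')
    rw [if_pos (by
      intro x hx y hy hxy
      simp only [mem_insert, mem_singleton] at hx hy
      rcases hx with hx | hx | hx <;> rcases hy with hy | hy | hy <;> rw [hx, hy] at hxy
      · exact hr _ hxy
      · exact h1 hxy
      · exact h2 hxy
      · exact h1 (hs _ _ hxy)
      · exact hr _ hxy
      · exact h3 hxy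
      · exact h2 (hs _ _ hxy)
      · exact h3 (hs _ _ hxy)
      · exact hr _ hxy)]
    cases ua <;> cases ub <;> cases uc <;> simp [h1', h2', h3', mul_assoc]

theorem AA_pair (i : ℕ → ℕ → Prop) (S : Finset ℕ) (a b c : ℕ)
    (par : ∀ d ∈ V, (i b d ↔ ¬ (i a d ↔ i c d))) :
    AA V σ i S {a, b} = AA V σ i S {a, b, c} ∧ AA V σ i S {a, c} = AA V σ i S {a, b, c} ∧
      AA V σ i S {b, c} = AA V σ i S {a, b, c} := by
  classical
  refine ⟨?_, ?_, ?_⟩
  all_goals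
    unfold AA
    refine Finset.sum_congr ?_ fun _ _ => rfl
    ext d
    simp only [mem_filter, mem_insert, mem_singleton, forall_eq_or_imp, forall_eq]
    refine and_congr_right fun hd => and_congr Iff.rfl (and_congr Iff.rfl ?_)
  · exact par_ab (par d hd)
  · exact par_ac (par d hd)
  · exact par_bc (par d hd)

theorem all8 (i : ℕ → ℕ → Prop) (hs : ∀ x y, i x y → i y x) (hr : ∀ x, ¬ i x x)
    (a b c : ℕ) (hab : a ≠ b) (hac : a ≠ c) (hbc : b ≠ c) (S : Finset ℕ)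
    (hE : Disjoint ({a, b, c} : Finset ℕ) V) (hS : S ⊆ V) (hW : W = {a, b, c} ∪ V)
    (hN : NI i S) (hK : ∀ x ∈ ({a, b, c} : Finset ℕ), ∀ c ∈ S, ¬ i c x)
    (par : ∀ d ∈ V, (i b d ↔ ¬ (i a d ↔ i c d))) (iab iac ibc ua ub uc : Bool)
    (hiab : i a b ↔ iab = true) (hiac : i a c ↔ iac = true) (hibc : i b c ↔ ibc = true)
    (hua : s a ≠ σ a ↔ ua = true) (hub : s b ≠ σ b ↔ ub = true) (huc : s c ≠ σ c ↔ uc = true) :
    tm q W σ s i (∅ ∪ S) + tm q W σ s i ({a} ∪ S) + tm q W σ s i ({b} ∪ S) +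
        tm q W σ s i ({c} ∪ S) + tm q W σ s i ({a, b} ∪ S) + tm q W σ s i ({a, c} ∪ S) +
        tm q W σ s i ({b, c} ∪ S) + tm q W σ s i ({a, b, c} ∪ S) =
      (∏ c ∈ S, xx q σ s c) * loc q (-(∑ x ∈ S, σ x) - ∑ d ∈ W, s d) (σ a) (σ b) (σ c) ua ub uc
        iab iac ibc (AA V σ i S ∅) (AA V σ i S {a}) (AA V σ i S {b}) (AA V σ i S {c})
        (AA V σ i S {a, b, c}) := by
  have hiba : i b a ↔ iab = true := ⟨fun h => hiab.1 (hs _ _ h), fun h => hs _ _ (hiab.2 h)⟩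
  have hica : i c a ↔ iac = true := ⟨fun h => hiac.1 (hs _ _ h), fun h => hs _ _ (hiac.2 h)⟩
  have hicb : i c b ↔ ibc = true := ⟨fun h => hibc.1 (hs _ _ h), fun h => hs _ _ (hibc.2 h)⟩
  obtain ⟨eab, eac, ebc⟩ := AA_pair V σ i S a b c par
  have ha : a ∈ ({a, b, c} : Finset ℕ) := by simp
  have hb : b ∈ ({a, b, c} : Finset ℕ) := by simp
  have hc : c ∈ ({a, b, c} : Finset ℕ) := by simp
  have h3 : ∀ f : ℕ → ℤ, ∑ w ∈ ({a, b, c} : Finset ℕ), f w = f a + f b + f c :=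
    sum3 a b c hab hac hbc
  have h3b : ∀ f : ℕ → ℤ, ∑ w ∈ ({a, b, c} : Finset ℕ), f w = f b + f a + f c := fun f => by
    rw [h3]; ring
  have h3c : ∀ f : ℕ → ℤ, ∑ w ∈ ({a, b, c} : Finset ℕ), f w = f c + f a + f b := fun f => by
    rw [h3]; ring
  have h3d : ∀ f : ℕ → ℤ, ∑ w ∈ ({a, b, c} : Finset ℕ), f w = f a + f c + f b := fun f => by
    rw [h3]; ring
  have h3e : ∀ f : ℕ → ℤ, ∑ w ∈ ({a, b, c} : Finset ℕ), f w = f b + f c + f a := fun f => by
    rw [h3]; ring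
  rw [t_zero q V W σ s i hs {a, b, c} S hE hS hW hN hK a b c h3,
    t_one q V W σ s i hs hr {a, b, c} S hE hS hW hN hK a b c hab.symm hac.symm ha h3
      ua iab iac hua hiab hiac,
    t_one q V W σ s i hs hr {a, b, c} S hE hS hW hN hK b a c hab hbc.symm hb h3b
      ub iab ibc hub hiba hibc,
    t_one q V W σ s i hs hr {a, b, c} S hE hS hW hN hK c a b hac hbc hc h3c
      uc iac ibc huc hica hicb,
    t_two q V W σ s i hs hr {a, b, c} S hE hS hW hN hK a b c hab hac.symm hbc.symm ha hb h3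
      ua ub iab iac ibc hua hub hiab hiac hibc _ eab,
    t_two q V W σ s i hs hr {a, b, c} S hE hS hW hN hK a c b hac hab.symm hbc ha hc h3d
      ua uc iac iab ibc hua huc hiac hiab hicb _ eac,
    t_two q V W σ s i hs hr {a, b, c} S hE hS hW hN hK b c a hbc hab hac hb hc h3e
      ub uc ibc iab iac hub huc hibc hiba hica _ ebc,
    t_three q V W σ s i hs hr a b c hab hac hbc S hE hS hW hN hK iab iac ibc ua ub uc
      hiab hiac hibc hua hub huc]
  unfold loc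
  ring

theorem tm_zero (i : ℕ → ℕ → Prop) (hs : ∀ x y, i x y → i y x) (T S : Finset ℕ)
    (h : ¬ NI i S) : tm q W σ s i (T ∪ S) = 0 := by
  classical
  unfold tm
  rw [if_neg fun h' => h ((NI_un i hs T S).1 h').1]

theorem AA_J (i : ℕ → ℕ → Prop) (S : Finset ℕ) (a b c : ℕ)
    (par : ∀ d ∈ V, (i b d ↔ ¬ (i a d ↔ i c d))) (v : ℤ)
    (hJ : ∀ D : Finset ℕ, (∀ d, d ∈ D ↔ d ∈ V ∧ d ∉ S ∧ (∀ x ∈ S, ¬ i x d) ∧ i a d ∧ i c d) →
      ∑ d ∈ D, σ d = v) :
    AA V σ i S {b} = AA V σ i S {a, b, c} + v := by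
  classical
  have h := hJ (V.filter (fun d => d ∉ S ∧ (∀ x ∈ S, ¬ i x d) ∧ i a d ∧ i c d))
    (fun d => by simp only [mem_filter])
  rw [← h]
  unfold AA
  rw [← Finset.sum_union]
  · refine Finset.sum_congr ?_ fun _ _ => rfl
    ext d
    simp only [mem_filter, mem_union, mem_insert, mem_singleton, forall_eq_or_imp, forall_eq]
    constructor
    · rintro ⟨h1, h2, h3, h4⟩
      have h5 := par d h1
      by_cases h6 : i a d
      · have h7 : i c d := by
          by_contra h7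
          exact h4 (h5.2 fun h8 => h7 (h8.1 h6))
        exact Or.inr ⟨h1, h2, h3, h6, h7⟩
      · have h7 : ¬ i c d := by
          intro h7
          exact h4 (h5.2 fun h8 => h6 (h8.2 h7))
        exact Or.inl ⟨h1, h2, h3, h6, h4, h7⟩
    · rintro (⟨h1, h2, h3, h4, h5, h6⟩ | ⟨h1, h2, h3, h4, h5⟩)
      · exact ⟨h1, h2, h3, h5⟩
      · exact ⟨h1, h2, h3, fun h6 => (par d h1).1 h6 ⟨fun _ => h5, fun _ => h4⟩⟩
  · rw [Finset.disjoint_left]
    intro d h1 h2
    simp only [mem_filter, mem_insert, mem_singleton, forall_eq_or_imp, forall_eq] at h1 h2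
    exact h1.2.2.2.1 h2.2.2.2.1

end

end Pr3

theorem Pr3.sub2 {x y : ℕ} {E : Finset ℕ} (hx : x ∈ E) (hy : y ∈ E) :
    ({x, y} : Finset ℕ) ⊆ E := by
  intro w hw
  rcases mem_insert.1 hw with h | h
  · rwa [h]
  · rwa [mem_singleton.1 h]

open Pr3 in
/-- Row PR3: the third move. -/
theorem pr3 (hloc : LocStmt) : Pr3Stmt := by
  classical
  intro R _ q hq V σ s iL iR a b c α β γ ha hb hc hab hac hbc hsL hsR hrL hrR hV hEV par
    hLab hLac hLbc hRab hRac hRbc hσb hσa hσc hsσ hne1 hne2 hJ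
  have hW : insert a (insert b (insert c V)) = ({a, b, c} : Finset ℕ) ∪ V := by
    simp only [insert_union, singleton_union]
  have hE : Disjoint ({a, b, c} : Finset ℕ) V := by
    rw [Finset.disjoint_left]
    intro x hx
    simp only [mem_insert, mem_singleton] at hx
    rcases hx with h | h | h <;> rw [h] <;> assumption
  generalize hWW : insert a (insert b (insert c V)) = W at hW ⊢
  rw [PP_split q V W σ s iL a b c ha hb hc hab hac hbc hWW.symm,
    PP_split q V W σ s iR a b c ha hb hc hab hac hbc hWW.symm]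
  refine Finset.sum_congr rfl fun S hS => ?_
  have hS := mem_powerset.1 hS
  have hVE : ∀ x ∈ ({a, b, c} : Finset ℕ), ∀ y ∈ V, (iL y x ↔ iR y x) := fun x hx y hy =>
    ⟨fun h => hsR _ _ ((hEV x hx y hy).1 (hsL _ _ h)),
      fun h => hsL _ _ ((hEV x hx y hy).2 (hsR _ _ h))⟩
  have hNN : NI iL S ↔ NI iR S := by
    unfold NI
    exact forall₂_congr fun x hx => forall₂_congr fun y hy =>
      not_congr (hV x (hS hx) y (hS hy))
  by_cases hN : NI iL S
  · by_cases hK : ∀ x ∈ ({a, b, c} : Finset ℕ), ∀ d ∈ S, ¬ iL d x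
    · have hKR : ∀ x ∈ ({a, b, c} : Finset ℕ), ∀ d ∈ S, ¬ iR d x := fun x hx d hd h =>
        hK x hx d hd ((hVE x hx d (hS hd)).2 h)
      have parR : ∀ d ∈ V, (iR b d ↔ ¬ (iR a d ↔ iR c d)) := fun d hd => by
        rw [← hEV a (by simp) d hd, ← hEV b (by simp) d hd, ← hEV c (by simp) d hd]
        exact par d hd
      have nb : ∀ x : Bool, x = false ↔ (!x) = true := by decide
      have eL := all8 q V W σ s iL hsL hrL a b c hab hac hbc S hE hS hW hN hK par α (!β) γ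
        (decide (s a ≠ σ a)) (decide (s b ≠ σ b)) (decide (s c ≠ σ c)) hLab
        (hLac.trans (nb β)) hLbc (by simp) (by simp) (by simp)
      have eR := all8 q V W σ s iR hsR hrR a b c hab hac hbc S hE hS hW (hNN.1 hN) hKR parR
        (!α) β (!γ)
        (decide (s a ≠ σ a)) (decide (s b ≠ σ b)) (decide (s c ≠ σ c))
        (hRab.trans (nb α)) hRac (hRbc.trans (nb γ)) (by simp) (by simp) (by simp)
      rw [eL, eR]
      congr 1
      have hA := fun T (hT : T ⊆ ({a, b, c} : Finset ℕ)) =>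
        AA_congr V σ iL iR {a, b, c} T S hT hS hV hEV
      rw [← hA ∅ (empty_subset _), ← hA {a} (by simp), ← hA {b} (by simp), ← hA {c} (by simp),
        ← hA {a, b, c} (Subset.refl _)]
      have hj := AA_J V σ iL S a b c par _ (hJ S hS hN fun x hx =>
        ⟨fun h => hK a (by simp) x hx (hsL _ _ h), fun h => hK c (by simp) x hx (hsL _ _ h)⟩)
      refine hloc R q hq _ (σ a) (σ b) (σ c) _ _ _ α β γ _ _ _ _ _ hσb hσa hσc ?_ ?_ ?_
      · simpa using hne1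
      · simpa using hne2
      · rw [hj]
        split_ifs <;> ring
    · have hK1 : ∀ x ∈ ({a, b, c} : Finset ℕ), ∀ z ∈ ({a, b, c} : Finset ℕ),
          (∀ d ∈ S, ¬ iL d x) → (∀ d ∈ S, ¬ iL d z) → x = z := by
        intro x hx z hz h1 h2
        by_contra hxz
        apply hK
        have h3 : ∀ d ∈ S, (iL d b ↔ ¬ (iL d a ↔ iL d c)) := fun d hd => by
          have h4 := par d (hS hd)
          have e1 : iL d a ↔ iL a d := ⟨hsL _ _, hsL _ _⟩
          have e2 : iL d b ↔ iL b d := ⟨hsL _ _, hsL _ _⟩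
          have e3 : iL d c ↔ iL c d := ⟨hsL _ _, hsL _ _⟩
          rw [e1, e2, e3]
          exact h4
        simp only [mem_insert, mem_singleton] at hx hz
        have h5 : ∀ d ∈ S, ¬ iL d a ∧ ¬ iL d b ∧ ¬ iL d c := by
          intro d hd
          have h6 := h3 d hd
          have h7 := h1 d hd
          have h8 := h2 d hd
          rcases hx with hx | hx | hx <;> rcases hz with hz | hz | hz <;>
            rw [hx] at h7 <;> rw [hz] at h8
          · exact absurd (hx.trans hz.symm) hxz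
          · exact (par_ab h6).1 ⟨h7, h8⟩
          · exact (par_ac h6).1 ⟨h7, h8⟩
          · exact (par_ab h6).1 ⟨h8, h7⟩
          · exact absurd (hx.trans hz.symm) hxz
          · exact (par_bc h6).1 ⟨h7, h8⟩
          · exact (par_ac h6).1 ⟨h8, h7⟩
          · exact (par_bc h6).1 ⟨h8, h7⟩
          · exact absurd (hx.trans hz.symm) hxz
        intro w hw d hd
        have := h5 d hd
        simp only [mem_insert, mem_singleton] at hw
        rcases hw with h | h | h <;> rw [h]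
        · exact this.1
        · exact this.2.1
        · exact this.2.2
      have hsame := fun T (hT : T ⊆ ({a, b, c} : Finset ℕ)) =>
        tm_same q V W σ s iL iR hsL hsR hrL hrR {a, b, c} T S hE hT hS hW hV hEV hK1
      rw [hsame ∅ (empty_subset _), hsame {a} (by simp), hsame {b} (by simp),
        hsame {c} (by simp), hsame {a, b} (sub2 (by simp) (by simp)),
        hsame {a, c} (sub2 (by simp) (by simp)), hsame {b, c} (sub2 (by simp) (by simp)),
        hsame {a, b, c} (Subset.refl _)]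
  · have hN' : ¬ NI iR S := fun h => hN (hNN.2 h)
    simp only [tm_zero q W σ s iL hsL _ S hN, tm_zero q W σ s iR hsR _ S hN']

end Pool.Agent.VTP.H69
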